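import Mathlib

/-!
# Tools for context-free grammars: soundness by interpretation, derivations of terminal words
-/

namespace Pool.Agent.Lib.MP_235015_lc

variable {T : Type}

/-- `Sem I u w`: the word `w` belongs to the language denoted by the sentential form `u` when the
nonterminal `B` is read as the language `I B`. -/
def Sem {N : Type} (I : N → List T → Prop) : List (Symbol T N) → List T → Prop
  | [], w => w = []
  | Symbol.terminal a :: l, w => ∃ w', w = a :: w' ∧ Sem I l w'
  | Symbol.nonterminal B :: l, w => ∃ u v, w = u ++ v ∧ I B u ∧ Sem I l v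

lemma sem_append {N : Type} (I : N → List T → Prop) (u v : List (Symbol T N)) :
    ∀ w, Sem I (u ++ v) w ↔ ∃ a b, w = a ++ b ∧ Sem I u a ∧ Sem I v b := by
  induction u with
  | nil =>
    intro w
    simp [Sem]
  | cons a u ih =>
    intro w
    cases a with
    | terminal a =>
      simp only [List.cons_append, Sem, ih]
      constructor
      · rintro ⟨w', rfl, a1, b1, rfl, h1, h2⟩
        exact ⟨a :: a1, b1, by simp, ⟨a1, rfl, h1⟩, h2⟩
      · rintro ⟨a1, b1, rfl, ⟨w', rfl, h1⟩, h2⟩
        exact ⟨w' ++ b1, by simp, w', b1, rfl, h1, h2⟩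
    | nonterminal B =>
      simp only [List.cons_append, Sem, ih]
      constructor
      · rintro ⟨x, y, rfl, hx, a1, b1, rfl, h1, h2⟩
        exact ⟨x ++ a1, b1, by simp, ⟨x, a1, rfl, hx, h1⟩, h2⟩
      · rintro ⟨a1, b1, rfl, ⟨x, y, rfl, hx, h1⟩, h2⟩
        exact ⟨x, y ++ b1, by simp, hx, y, b1, rfl, h1, h2⟩

lemma sem_terminals {N : Type} (I : N → List T → Prop) (w : List T) :
    Sem I (w.map Symbol.terminal) w := by
  induction w with
  | nil => rfl
  | cons a w ih => exact ⟨w, rfl, ih⟩

lemma sem_terminals_append {N : Type} (I : N → List T → Prop) (p : List T)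
    (v : List (Symbol T N)) :
    ∀ w, Sem I (p.map Symbol.terminal ++ v) w ↔ ∃ w', w = p ++ w' ∧ Sem I v w' := by
  induction p with
  | nil =>
    intro w
    simp
  | cons a p ih =>
    intro w
    simp only [List.map_cons, List.cons_append, Sem, ih]
    constructor
    · rintro ⟨w', rfl, w'', rfl, h⟩
      exact ⟨w'', rfl, h⟩
    · rintro ⟨w'', rfl, h⟩
      exact ⟨p ++ w'', rfl, w'', rfl, h⟩

lemma sem_of_derives (g : ContextFreeGrammar T) (I : g.NT → List T → Prop)
    (h : ∀ r ∈ g.rules, ∀ w, Sem I r.output w → I r.input w) {u v : List (Symbol T g.NT)}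
    (hd : g.Derives u v) : ∀ w, Sem I v w → Sem I u w := by
  induction hd with
  | refl => exact fun w hw => hw
  | tail _ last ih =>
    intro w hw
    apply ih
    obtain ⟨r, hr, hrw⟩ := last
    obtain ⟨p, q, rfl, rfl⟩ := hrw.exists_parts
    rw [sem_append] at hw
    obtain ⟨a, b, rfl, hpa, hb⟩ := hw
    rw [sem_append] at hpa
    obtain ⟨a1, a2, rfl, h1, h2⟩ := hpa
    rw [sem_append]
    refine ⟨a1 ++ a2, b, rfl, ?_, hb⟩
    rw [sem_append]
    refine ⟨a1, a2, rfl, h1, ?_⟩
    exact ⟨a2, [], by simp, h r hr a2 h2, rfl⟩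

lemma language_sound (g : ContextFreeGrammar T) (I : g.NT → List T → Prop)
    (h : ∀ r ∈ g.rules, ∀ w, Sem I r.output w → I r.input w) (w : List T)
    (hw : g.Derives [Symbol.nonterminal g.initial] (w.map Symbol.terminal)) :
    I g.initial w := by
  obtain ⟨u, v, rfl, hu, hv⟩ := sem_of_derives g I h hw w (sem_terminals I w)
  have hv' : v = [] := hv
  rw [hv', List.append_nil]
  exact hu

/-- The sentential form `u` derives the terminal word `w`. -/
def Gen (g : ContextFreeGrammar T) (u : List (Symbol T g.NT)) (w : List T) : Prop :=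
  g.Derives u (w.map Symbol.terminal)

lemma Gen.append {g : ContextFreeGrammar T} {u v : List (Symbol T g.NT)} {w1 w2 : List T}
    (h1 : Gen g u w1) (h2 : Gen g v w2) : Gen g (u ++ v) (w1 ++ w2) := by
  unfold Gen at *
  rw [List.map_append]
  exact (h1.append_right v).trans (h2.append_left _)

lemma Gen.nil (g : ContextFreeGrammar T) : Gen g [] [] := by
  unfold Gen
  exact ContextFreeGrammar.Derives.refl _

lemma Gen.terminal (g : ContextFreeGrammar T) (a : T) : Gen g [Symbol.terminal a] [a] := by
  unfold Gen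
  exact ContextFreeGrammar.Derives.refl _

lemma Gen.terminals (g : ContextFreeGrammar T) (w : List T) :
    Gen g (w.map Symbol.terminal) w := by
  unfold Gen
  exact ContextFreeGrammar.Derives.refl _

lemma Gen.cons_terminal {g : ContextFreeGrammar T} {v : List (Symbol T g.NT)} {w : List T}
    (a : T) (h : Gen g v w) : Gen g (Symbol.terminal a :: v) (a :: w) :=
  (Gen.terminal g a).append h

lemma Gen.cons_nonterminal {g : ContextFreeGrammar T} {B : g.NT} {v : List (Symbol T g.NT)}
    {w1 w2 : List T} (h1 : Gen g [Symbol.nonterminal B] w1) (h2 : Gen g v w2) :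
    Gen g (Symbol.nonterminal B :: v) (w1 ++ w2) :=
  h1.append h2

lemma Gen.rule {g : ContextFreeGrammar T} {r : ContextFreeRule T g.NT} (hr : r ∈ g.rules)
    {w : List T} (h : Gen g r.output w) : Gen g [Symbol.nonterminal r.input] w := by
  unfold Gen at *
  refine ContextFreeGrammar.Produces.trans_derives ⟨r, hr, ?_⟩ h
  exact ContextFreeRule.Rewrites.input_output

end Pool.Agent.Lib.MP_235015_lc
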