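import Mathlib

/-!
# Pattern languages (definitions for MP_235015_lc)

The variables are the positive integers (`ℕ+`), the terminals are the elements of an alphabet `A`.
Words over an alphabet are elements of the free monoid; a `Language A` of Mathlib is a set of words
over `A` (words are lists, and `FreeMonoid.toList` reads an element of the free monoid as a list).
-/

namespace Pool.Agent.Lib.MP_235015_lc

/-- Words over the union of the variables (positive integers, `Sum.inl`) and the terminals
(`Sum.inr`).  A pattern is such a word different from the empty word `1`. -/
abbrev PatternWord (A : Type) : Type := FreeMonoid (ℕ+ ⊕ A)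

/-- The morphism `σ` fixes every terminal. -/
def TerminalPreserving {A : Type} (σ : PatternWord A →* FreeMonoid A) : Prop :=
  ∀ a : A, σ (FreeMonoid.of (Sum.inr a)) = FreeMonoid.of a

/-- The morphism `σ` sends no variable to the empty word. -/
def Nonerasing {A : Type} (σ : PatternWord A →* FreeMonoid A) : Prop :=
  ∀ i : ℕ+, σ (FreeMonoid.of (Sum.inl i)) ≠ 1

/-- The NE-pattern language of the pattern `α` over the alphabet `A`: all images of `α` under
nonerasing terminal-preserving morphisms. -/
def nePatternLanguage {A : Type} (α : PatternWord A) : Language A :=
  {w : List A | ∃ σ : PatternWord A →* FreeMonoid A,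
    TerminalPreserving σ ∧ Nonerasing σ ∧ w = FreeMonoid.toList (σ α)}

end Pool.Agent.Lib.MP_235015_lc
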