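import Mathlib

/-!
# Combinatorial core: short matches and almost unary matches
-/

namespace Pool.Agent.Lib.MP_235015_lc

variable {A : Type}

/-- `w` is a word of the form `w₀ x w₁ s x t w₂ s w₃ d w₄ t w₅` with nonempty `wᵢ`. -/
def IsMatch (d : A) (x : List A) (s t : A) (w : List A) : Prop :=
  ∃ w0 w1 w2 w3 w4 w5 : List A, w0 ≠ [] ∧ w1 ≠ [] ∧ w2 ≠ [] ∧ w3 ≠ [] ∧ w4 ≠ [] ∧ w5 ≠ [] ∧
    w = w0 ++ (x ++ (w1 ++ s :: (x ++ t :: (w2 ++ s :: (w3 ++ d :: (w4 ++ t :: w5))))))

/-- Every long word contains `c`, then a factor `s c t`, then `s`, all separated. -/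
lemma exists_core [Fintype A] (z : List A)
    (hz : 4 * (2 * (Fintype.card A * Fintype.card A) + 1) ≤ z.length) :
    ∃ (z0 z1 z2 z3 : List A) (c s t : A), z0 ≠ [] ∧ z1 ≠ [] ∧ z2 ≠ [] ∧ z3 ≠ [] ∧
      z = z0 ++ c :: (z1 ++ s :: c :: t :: (z2 ++ s :: z3)) := by
  classical
  set q := Fintype.card A * Fintype.card A with hq
  have hlt : ∀ k : Fin (2 * q + 1), ∀ j : ℕ, j < 4 → 4 * k.1 + j < z.length := by
    intro k j hj
    have := k.2
    omega
  let g : Fin (2 * q + 1) → A × A := fun k =>
    (z[4 * k.1 + 1]'(hlt k 1 (by omega)), z[4 * k.1 + 2]'(hlt k 2 (by omega)))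
  have hpig : ∃ y ∈ (Finset.univ : Finset (A × A)),
      2 < (Finset.univ.filter (fun k : Fin (2 * q + 1) => g k = y)).card := by
    apply Finset.exists_lt_card_fiber_of_mul_lt_card_of_maps_to
    · intro a _
      exact Finset.mem_univ _
    · simp only [Finset.card_univ, Fintype.card_prod, Fintype.card_fin]
      rw [← hq]
      omega
  obtain ⟨y, -, hy⟩ := hpig
  obtain ⟨T, hTs, hT⟩ := Finset.exists_subset_card_eq (Nat.succ_le_of_lt hy)
  have he : ∀ i, g (T.orderEmbOfFin hT i) = y := by
    intro i
    have := hTs (T.orderEmbOfFin_mem hT i)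
    simpa using this
  have h01 : T.orderEmbOfFin hT 0 < T.orderEmbOfFin hT 1 := by
    apply (T.orderEmbOfFin hT).strictMono
    decide
  have h12 : T.orderEmbOfFin hT 1 < T.orderEmbOfFin hT 2 := by
    apply (T.orderEmbOfFin hT).strictMono
    decide
  have e0 := he 0
  have e1 := he 1
  have e2 := he 2
  generalize T.orderEmbOfFin hT 0 = i1 at e0 h01
  generalize T.orderEmbOfFin hT 1 = i2 at e1 h01 h12
  generalize T.orderEmbOfFin hT 2 = i3 at e2 h12
  have h01' : i1.1 < i2.1 := h01
  have h12' : i2.1 < i3.1 := h12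
  have hb1 := hlt i1 2 (by omega)
  have hb2 := hlt i2 1 (by omega)
  have hb2' := hlt i2 2 (by omega)
  have hb2'' := hlt i2 3 (by omega)
  have hb3 := hlt i3 1 (by omega)
  have hb3' := hlt i3 2 (by omega)
  have f0 : z[4 * i1.1 + 2] = y.2 := by rw [← e0]
  have f1 : z[4 * i2.1 + 1] = y.1 := by rw [← e1]
  have f2 : z[4 * i2.1 + 2] = y.2 := by rw [← e1]
  have f3 : z[4 * i3.1 + 1] = y.1 := by rw [← e2]
  have d1 : z.drop (4 * i1.1 + 2) = y.2 :: z.drop (4 * i1.1 + 3) := by
    rw [List.drop_eq_getElem_cons hb1, f0]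
  have d2 : z.drop (4 * i2.1 + 1) = y.1 :: y.2 :: z[4 * i2.1 + 3] :: z.drop (4 * i2.1 + 4) := by
    rw [List.drop_eq_getElem_cons hb2, List.drop_eq_getElem_cons hb2',
      List.drop_eq_getElem_cons hb2'', f1, f2]
  have d3 : z.drop (4 * i3.1 + 1) = y.1 :: z.drop (4 * i3.1 + 2) := by
    rw [List.drop_eq_getElem_cons hb3, f3]
  have t1 : z = z.take (4 * i1.1 + 2) ++ z.drop (4 * i1.1 + 2) :=
    (List.take_append_drop _ _).symm
  have t2 : z.drop (4 * i1.1 + 3) = (z.drop (4 * i1.1 + 3)).take (4 * i2.1 + 1 - (4 * i1.1 + 3)) ++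
      z.drop (4 * i2.1 + 1) := by
    conv_lhs => rw [← List.take_append_drop (4 * i2.1 + 1 - (4 * i1.1 + 3)) (z.drop _)]
    rw [List.drop_drop]
    congr 2
    omega
  have t3 : z.drop (4 * i2.1 + 4) = (z.drop (4 * i2.1 + 4)).take (4 * i3.1 + 1 - (4 * i2.1 + 4)) ++
      z.drop (4 * i3.1 + 1) := by
    conv_lhs => rw [← List.take_append_drop (4 * i3.1 + 1 - (4 * i2.1 + 4)) (z.drop _)]
    rw [List.drop_drop]
    congr 2
    omega
  refine ⟨z.take (4 * i1.1 + 2), (z.drop (4 * i1.1 + 3)).take (4 * i2.1 + 1 - (4 * i1.1 + 3)),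
    (z.drop (4 * i2.1 + 4)).take (4 * i3.1 + 1 - (4 * i2.1 + 4)), z.drop (4 * i3.1 + 2),
    y.2, y.1, z[4 * i2.1 + 3], ?_, ?_, ?_, ?_, ?_⟩
  · intro h
    have := congrArg List.length h
    simp only [List.length_take, List.length_nil] at this
    omega
  · intro h
    have := congrArg List.length h
    simp only [List.length_take, List.length_drop, List.length_nil] at this
    omega
  · intro h
    have := congrArg List.length h
    simp only [List.length_take, List.length_drop, List.length_nil] at this
    omega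
  · intro h
    have := congrArg List.length h
    simp only [List.length_drop, List.length_nil] at this
    omega
  · rw [← d3, ← t3, ← d2, ← t2, ← d1, ← t1]

/-- In an alphabet with four letters, a word avoiding three distinct letters is unary. -/
lemma unary_of_avoid [Fintype A] (hA : Fintype.card A = 4) {p q r : A} (hpq : p ≠ q)
    (hpr : p ≠ r) (hqr : q ≠ r) :
    ∃ l : A, ∀ y : List A, p ∉ y → q ∉ y → r ∉ y → y = List.replicate y.length l := by
  classical
  have hcard : (Finset.univ \ {p, q, r} : Finset A).card = 1 := by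
    rw [Finset.card_sdiff_of_subset (Finset.subset_univ _), Finset.card_univ, hA]
    have : ({p, q, r} : Finset A).card = 3 := by
      rw [Finset.card_eq_three]
      exact ⟨p, q, r, hpq, hpr, hqr, rfl⟩
    omega
  obtain ⟨l, hl⟩ := Finset.card_eq_one.mp hcard
  refine ⟨l, fun y hp hq hr => ?_⟩
  rw [List.eq_replicate_iff]
  refine ⟨rfl, fun b hb => ?_⟩
  have : b ∈ (Finset.univ \ {p, q, r} : Finset A) := by
    simp only [Finset.mem_sdiff, Finset.mem_univ, true_and, Finset.mem_insert,
      Finset.mem_singleton, not_or]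
    refine ⟨?_, ?_, ?_⟩
    · rintro rfl
      exact hp hb
    · rintro rfl
      exact hq hb
    · rintro rfl
      exact hr hb
  rw [hl] at this
  simpa using this


/-- If a long word occurs before and after an occurrence of `d`, there is a match of length one. -/
lemma core_match [Fintype A] {d : A} {w P z Q R1 R2 : List A}
    (hz : 4 * (2 * (Fintype.card A * Fintype.card A) + 1) ≤ z.length)
    (hw : w = P ++ (z ++ (Q ++ d :: (R1 ++ (z ++ R2))))) :
    ∃ c s t, IsMatch d [c] s t w := by
  obtain ⟨z0, z1, z2, z3, c, s, t, h0, h1, h2, h3, hzz⟩ := exists_core z hz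
  refine ⟨c, s, t, P ++ z0, z1, z2, z3 ++ Q, R1 ++ (z0 ++ c :: (z1 ++ [s, c])),
    z2 ++ s :: (z3 ++ R2), ?_, h1, h2, ?_, ?_, ?_, ?_⟩
  · simp [h0]
  · simp [h3]
  · simp
  · simp
  · rw [hw, hzz]
    simp

lemma exists_last_three (y : List A) (hy : 3 ≤ y.length) :
    ∃ (y1 : List A) (g u c : A), y = y1 ++ [g, u, c] := by
  refine ⟨y.take (y.length - 3), y[y.length - 3], y[y.length - 2], y[y.length - 1], ?_⟩
  conv_lhs => rw [← List.take_append_drop (y.length - 3) y]
  congr 1
  rw [List.drop_eq_getElem_cons (by omega), List.drop_eq_getElem_cons (by omega),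
    List.drop_eq_getElem_cons (by omega), List.drop_eq_nil_of_le (by omega)]
  congr 3
  · omega
  · congr 1
    omega

/-- The reduction: a long match either can be shortened or is almost unary. -/
lemma reduce [Fintype A] (hA : Fintype.card A = 4) (d : A) {w x : List A} {s t : A}
    (h : IsMatch d x s t w) (hx : 266 ≤ x.length) :
    (∃ x' s' t', x' ≠ [] ∧ x'.length < x.length ∧ IsMatch d x' s' t' w) ∨
    (∃ p l n q, p.length ≤ 1 ∧ q.length ≤ 4 ∧ x = p ++ (List.replicate n l ++ q)) := by
  obtain ⟨w0, w1, w2, w3, w4, w5, h0, h1, h2, h3, h4, h5, hw⟩ := h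
  by_contra hcon
  rw [not_or] at hcon
  obtain ⟨hmin, hun⟩ := hcon
  have hmin1 : ¬ ∃ c s' t', IsMatch d [c] s' t' w := by
    rintro ⟨c, s', t', hm⟩
    exact hmin ⟨[c], s', t', by simp, by simp; omega, hm⟩
  have hN : 4 * (2 * (Fintype.card A * Fintype.card A) + 1) = 132 := by rw [hA]
  -- the letter `t` may only occur at the front of `x`
  have hT : ∀ a b, x = a ++ t :: b → a = [] := by
    intro a b hab
    by_contra hne
    refine hmin ⟨a, s, t, hne, by rw [hab]; simp, w0, t :: (b ++ w1), b ++ t :: w2, w3, w4, w5,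
      h0, by simp, by simp, h3, h4, h5, ?_⟩
    rw [hw, hab]
    simp
  -- the letter `s` may only occur at the end of `x`
  have hS : ∀ a b, x = a ++ s :: b → b = [] := by
    intro a b hab
    by_contra hne
    refine hmin ⟨b, s, t, hne, by rw [hab]; simp; omega, w0 ++ (a ++ [s]), w1 ++ s :: a, w2, w3, w4,
      w5, by simp, by simp, h2, h3, h4, h5, ?_⟩
    rw [hw, hab]
    simp
  -- `d` does not occur in `x`
  have hdx : d ∉ x := by
    intro hd
    obtain ⟨x1, x2, hx12⟩ := List.append_of_mem hd
    have hlen : x.length = x1.length + (x2.length + 1) := by rw [hx12]; simp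
    rcases le_or_gt 132 x1.length with hl | hl
    · apply hmin1
      apply core_match (z := x1) (P := w0) (Q := []) (R1 := x2 ++ (w1 ++ [s]))
        (R2 := d :: (x2 ++ t :: (w2 ++ s :: (w3 ++ d :: (w4 ++ t :: w5))))) (by omega)
      rw [hw, hx12]
      simp
    · apply hmin1
      apply core_match (z := x2) (P := w0 ++ (x1 ++ [d])) (Q := w1 ++ s :: x1) (R1 := [])
        (R2 := t :: (w2 ++ s :: (w3 ++ d :: (w4 ++ t :: w5)))) (by omega)
      rw [hw, hx12]
      simp
  -- `d` does not occur between the two copies of `x`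
  have hdw : d ∉ w1 ++ [s] := by
    intro hd
    obtain ⟨b1, b2, hb⟩ := List.append_of_mem hd
    apply hmin1
    apply core_match (z := x) (P := w0) (Q := b1) (R1 := b2)
      (R2 := t :: (w2 ++ s :: (w3 ++ d :: (w4 ++ t :: w5)))) (by omega)
    rw [hw]
    have : w1 ++ s :: (x ++ t :: (w2 ++ s :: (w3 ++ d :: (w4 ++ t :: w5)))) =
        (w1 ++ [s]) ++ (x ++ t :: (w2 ++ s :: (w3 ++ d :: (w4 ++ t :: w5)))) := by simp
    rw [this, hb]
    simp
  have hds : d ≠ s := by
    rintro rfl
    exact hdw (by simp)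
  -- decompose `x`
  obtain ⟨x0, mid, g, hxm⟩ : ∃ x0 mid g, x = x0 :: (mid ++ [g]) := by
    match x, hx with
    | a :: b :: l, _ =>
      rcases List.eq_nil_or_concat (b :: l) with hnil | ⟨L, c, hc⟩
      · simp at hnil
      · exact ⟨a, L, c, by rw [hc, List.concat_eq_append]⟩
  have htm : t ∉ mid ++ [g] := by
    intro hmem
    obtain ⟨a, b, hab⟩ := List.append_of_mem hmem
    have := hT (x0 :: a) b (by rw [hxm, hab]; simp)
    simp at this
  have hsm : s ∉ x0 :: mid := by
    intro hmem
    obtain ⟨a, b, hab⟩ := List.append_of_mem hmem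
    have h' : x = a ++ s :: (b ++ [g]) := by
      rw [hxm]
      have : x0 :: (mid ++ [g]) = (x0 :: mid) ++ [g] := by simp
      rw [this, hab]
      simp
    have := hS a (b ++ [g]) h'
    simp at this
  have hdm : d ∉ mid := by
    intro hmem
    exact hdx (by rw [hxm]; simp [hmem])
  by_cases hcase : s ≠ t ∧ t ≠ d
  · obtain ⟨hst, htd⟩ := hcase
    obtain ⟨l, hl⟩ := unary_of_avoid hA hst hds.symm htd
    have := hl mid (fun hm => hsm (by simp [hm])) (fun hm => htm (by simp [hm])) hdm
    exact hun ⟨[x0], l, mid.length, [g], by simp, by simp, by rw [← this, hxm]; simp⟩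
  · have hcase' : s = t ∨ t = d := by
      by_contra hc
      rw [not_or] at hc
      exact hcase hc
    -- the first occurrence of `s` after the beginning of the first copy
    obtain ⟨y', y'', hy, hsy⟩ : ∃ y' y'', x ++ (w1 ++ [s]) = y' ++ s :: y'' ∧ s ∉ y' :=
      List.eq_append_cons_of_mem (by simp)
    have hdy : d ∉ y' := by
      intro hm
      have hm' : d ∈ x ++ (w1 ++ [s]) := by rw [hy]; simp [hm]
      rcases List.mem_append.mp hm' with h | h
      · exact hdx h
      · exact hdw h
    have hpre : ∃ a', y' = (x0 :: mid) ++ a' := by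
      have h1 : (x0 :: mid) ++ (g :: (w1 ++ [s])) = y' ++ s :: y'' := by
        rw [← hy, hxm]
        simp
      rcases List.append_eq_append_iff.mp h1 with ⟨a', ha, -⟩ | ⟨c', hc, hc2⟩
      · exact ⟨a', ha⟩
      · cases c' with
        | nil => exact ⟨[], by simpa using hc.symm⟩
        | cons b c'' =>
          simp only [List.cons_append, List.cons.injEq] at hc2
          exfalso
          apply hsm
          rw [hc, ← hc2.1]
          simp
    obtain ⟨a', ha'⟩ := hpre
    have hlenx : x.length = mid.length + 2 := by rw [hxm]; simp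
    have hleny : mid.length + 1 ≤ y'.length := by rw [ha']; simp
    obtain ⟨y1, g1, u, c, hy1⟩ := exists_last_three y' (by omega)
    have hcs : c ≠ s := by
      rintro rfl
      exact hsy (by rw [hy1]; simp)
    have hcd : c ≠ d := by
      rintro rfl
      exact hdy (by rw [hy1]; simp)
    have hus : u ≠ s := by
      rintro rfl
      exact hsy (by rw [hy1]; simp)
    have hud : u ≠ d := by
      rintro rfl
      exact hdy (by rw [hy1]; simp)
    have hww : w = w0 ++ (y1 ++ g1 :: u :: c :: s :: (y'' ++ (x ++ t :: (w2 ++ s :: (w3 ++ d ::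
        (w4 ++ t :: w5)))))) := by
      rw [hw]
      have e1 : x ++ (w1 ++ s :: (x ++ t :: (w2 ++ s :: (w3 ++ d :: (w4 ++ t :: w5))))) =
        (x ++ (w1 ++ [s])) ++ (x ++ t :: (w2 ++ s :: (w3 ++ d :: (w4 ++ t :: w5)))) := by simp
      rw [e1, hy, hy1]
      simp
    by_cases hc : c ∈ y1
    · obtain ⟨al, be, hab⟩ := List.append_of_mem hc
      rcases hcase' with hst | htd
      · subst hst
        by_cases hu : u ∈ mid ++ [g]
        · obtain ⟨xi, eta, hxe⟩ := List.append_of_mem hu
          apply hmin1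
          refine ⟨c, u, s, w0 ++ al, be ++ [g1], y'' ++ (x0 :: xi), eta ++ s :: (w2 ++ s :: w3),
            w4, w5, by simp [h0], by simp, by simp, by simp, h4, h5, ?_⟩
          rw [hww, hab, hxm, hxe]
          simp
        · obtain ⟨l, hl⟩ := unary_of_avoid hA hus hud hds.symm
          have := hl (mid ++ [g]) hu htm (fun hm => hdx (by rw [hxm]; simp at hm; simp [hm]))
          refine hun ⟨[x0], l, (mid ++ [g]).length, [], by simp, by simp, ?_⟩
          rw [← this, hxm]
          simp
      · subst htd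
        by_cases hu : u ∈ mid
        · obtain ⟨xi, eta, hxe⟩ := List.append_of_mem hu
          apply hmin1
          refine ⟨c, u, s, w0 ++ al, be ++ [g1], y'' ++ (x0 :: xi), eta ++ [g],
            w2, w3 ++ t :: (w4 ++ t :: w5), by simp [h0], by simp, by simp, by simp, h2,
            by simp, ?_⟩
          rw [hww, hab, hxm, hxe]
          simp
        · obtain ⟨l, hl⟩ := unary_of_avoid hA hus hud hds.symm
          have := hl mid hu (fun hm => hsm (by simp [hm])) hdm
          exact hun ⟨[x0], l, mid.length, [g], by simp, by simp, by rw [← this, hxm]; simp⟩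
    · obtain ⟨l, hl⟩ := unary_of_avoid hA hcs hcd hds.symm
      have hy1u := hl y1 hc (fun hm => hsy (by rw [hy1]; simp [hm]))
        (fun hm => hdy (by rw [hy1]; simp [hm]))
      have h1 : (x0 :: mid) ++ a' = y1 ++ [g1, u, c] := by rw [← ha', hy1]
      rcases List.append_eq_append_iff.mp h1 with ⟨e, he, -⟩ | ⟨e, he, he2⟩
      · have hpu : x0 :: mid = List.replicate (x0 :: mid).length l := by
          rw [List.eq_replicate_iff]
          refine ⟨rfl, fun b hb => ?_⟩
          rw [List.eq_replicate_iff] at hy1u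
          exact hy1u.2 b (by rw [he]; exact List.mem_append_left _ hb)
        refine hun ⟨[], l, (x0 :: mid).length, [g], by simp, by simp, ?_⟩
        rw [← hpu, hxm]
        simp
      · have hel : e.length ≤ 3 := by
          have := congrArg List.length he2
          simp at this
          omega
        refine hun ⟨[], l, y1.length, e ++ [g], by simp, by simp; omega, ?_⟩
        rw [← hy1u, hxm]
        have : x0 :: (mid ++ [g]) = (x0 :: mid) ++ [g] := by simp
        rw [this, he]
        simp


/-- Every match can be replaced by one whose main word is unary up to bounded ends. -/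
lemma exists_good_match [Fintype A] (hA : Fintype.card A = 4) (d : A) (w : List A) :
    ∀ (n : ℕ) (x : List A) (s t : A), x.length ≤ n → x ≠ [] → IsMatch d x s t w →
    ∃ (p : List A) (l : A) (k : ℕ) (q : List A) (s t : A), p.length ≤ 265 ∧ q.length ≤ 265 ∧
      IsMatch d (p ++ (List.replicate (k + 1) l ++ q)) s t w := by
  intro n
  induction n with
  | zero =>
    intro x s t hx hne
    exact absurd (List.length_eq_zero_iff.mp (by omega)) hne
  | succ n ih =>
    intro x s t hx hne hm
    rcases Nat.lt_or_ge x.length 266 with hlt | hge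
    · cases x with
      | nil => exact absurd rfl hne
      | cons a x' =>
        refine ⟨[], a, 0, x', s, t, by simp, by simp at hlt; omega, ?_⟩
        simpa using hm
    · rcases reduce hA d hm hge with ⟨x', s', t', hne', hlt, hm'⟩ | ⟨p, l, m, q, hp, hq, hx'⟩
      · exact ih x' s' t' (by omega) hne' hm'
      · have hlen : x.length = p.length + (m + q.length) := by rw [hx']; simp
        obtain ⟨k, rfl⟩ : ∃ k, m = k + 1 := ⟨m - 1, by omega⟩
        exact ⟨p, l, k, q, s, t, by omega, by omega, by rw [← hx']; exact hm⟩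

end Pool.Agent.Lib.MP_235015_lc
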