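import Mathlib
import Pool.Agent.Lib.MP_235015_lc.ProofMatch
import Pool.Agent.Lib.MP_235015_lc.ProofGrammar

/-!
# The set of matched words is context-free
-/

namespace Pool.Agent.Lib.MP_235015_lc

/-- Words of bounded length. -/
abbrev BW (A : Type) : Type := {p : List A // p.length ≤ 265}

instance (A : Type) [Finite A] : Finite (BW A) := (List.finite_length_le A 265).to_subtype

/-- The nonterminals of the grammar. -/
inductive NTs (A : Type) : Type
  | start : NTs A
  | word : NTs A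
  | mid : BW A → A → BW A → A → NTs A

variable {A : Type}

/-- Rule `word → a`. -/
def ruleA (a : A) : ContextFreeRule A (NTs A) :=
  ⟨NTs.word, [Symbol.terminal a]⟩

/-- Rule `word → a word`. -/
def ruleB (a : A) : ContextFreeRule A (NTs A) :=
  ⟨NTs.word, [Symbol.terminal a, Symbol.nonterminal NTs.word]⟩

/-- Rule `mid → l mid l`. -/
def ruleC (i : (BW A × A) × (BW A × A)) : ContextFreeRule A (NTs A) :=
  ⟨NTs.mid i.1.1 i.1.2 i.2.1 i.2.2, [Symbol.terminal i.1.2,
    Symbol.nonterminal (NTs.mid i.1.1 i.1.2 i.2.1 i.2.2), Symbol.terminal i.1.2]⟩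

/-- Rule `mid → l q word s p l`. -/
def ruleD (i : (BW A × A) × (BW A × A)) : ContextFreeRule A (NTs A) :=
  ⟨NTs.mid i.1.1 i.1.2 i.2.1 i.2.2, Symbol.terminal i.1.2 ::
    (i.2.1.1.map Symbol.terminal ++ Symbol.nonterminal NTs.word :: Symbol.terminal i.2.2 ::
      (i.1.1.1.map Symbol.terminal ++ [Symbol.terminal i.1.2]))⟩

/-- Rule `start → word p mid q t word s word d word t word`. -/
def ruleE (d : A) (i : ((BW A × A) × (BW A × A)) × A) : ContextFreeRule A (NTs A) :=
  ⟨NTs.start, Symbol.nonterminal NTs.word :: (i.1.1.1.1.map Symbol.terminal ++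
    Symbol.nonterminal (NTs.mid i.1.1.1 i.1.1.2 i.1.2.1 i.1.2.2) ::
    (i.1.2.1.1.map Symbol.terminal ++ [Symbol.terminal i.2, Symbol.nonterminal NTs.word,
      Symbol.terminal i.1.2.2, Symbol.nonterminal NTs.word, Symbol.terminal d,
      Symbol.nonterminal NTs.word, Symbol.terminal i.2, Symbol.nonterminal NTs.word]))⟩

/-- The set of all rules. -/
def ruleSet (d : A) : Set (ContextFreeRule A (NTs A)) :=
  Set.range ruleA ∪ (Set.range ruleB ∪ (Set.range ruleC ∪ (Set.range ruleD ∪
    Set.range (ruleE d))))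

lemma ruleSet_finite [Finite A] (d : A) : (ruleSet d).Finite :=
  (Set.finite_range _).union ((Set.finite_range _).union ((Set.finite_range _).union
    ((Set.finite_range _).union (Set.finite_range _))))

/-- The grammar. -/
noncomputable def gram [Finite A] (d : A) : ContextFreeGrammar A where
  NT := NTs A
  initial := NTs.start
  rules := (ruleSet_finite d).toFinset

/-- Words with a match whose main word is unary up to bounded ends. -/
def GoodWord (d : A) (w : List A) : Prop :=
  ∃ (p : List A) (l : A) (k : ℕ) (q : List A) (s t : A), p.length ≤ 265 ∧ q.length ≤ 265 ∧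
    IsMatch d (p ++ (List.replicate (k + 1) l ++ q)) s t w

/-- The reading of the nonterminals. -/
def interp (d : A) : NTs A → List A → Prop
  | NTs.start, w => GoodWord d w
  | NTs.word, w => w ≠ []
  | NTs.mid p l q s, w => ∃ (k : ℕ) (w1 : List A), w1 ≠ [] ∧
      w = List.replicate (k + 1) l ++ (q.1 ++ (w1 ++ s :: (p.1 ++ List.replicate (k + 1) l)))

lemma interp_sound (d : A) (r : ContextFreeRule A (NTs A)) (hr : r ∈ ruleSet d) (w : List A)
    (h : Sem (interp d) r.output w) : interp d r.input w := by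
  rcases hr with ⟨a, rfl⟩ | ⟨a, rfl⟩ | ⟨⟨⟨p, l⟩, ⟨q, s⟩⟩, rfl⟩ | ⟨⟨⟨p, l⟩, ⟨q, s⟩⟩, rfl⟩ |
    ⟨⟨⟨⟨p, l⟩, ⟨q, s⟩⟩, t⟩, rfl⟩
  · obtain ⟨w', rfl, -⟩ := h
    exact List.cons_ne_nil _ _
  · obtain ⟨w', rfl, -⟩ := h
    exact List.cons_ne_nil _ _
  · obtain ⟨w', rfl, u, v, rfl, ⟨k, w1, hw1, rfl⟩, w'', rfl, hnil⟩ := h
    have hnil' : w'' = [] := hnil
    subst hnil'
    refine ⟨k + 1, w1, hw1, ?_⟩
    have e1 : List.replicate (k + 1 + 1) l = l :: List.replicate (k + 1) l :=
      List.replicate_succ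
    have e2 : List.replicate (k + 1 + 1) l = List.replicate (k + 1) l ++ [l] :=
      List.replicate_succ'
    have e3 : l :: ((List.replicate (k + 1) l ++ (q.1 ++ (w1 ++ s :: (p.1 ++
        List.replicate (k + 1) l)))) ++ [l]) = (l :: List.replicate (k + 1) l) ++
        (q.1 ++ (w1 ++ s :: (p.1 ++ (List.replicate (k + 1) l ++ [l])))) := by simp
    rw [← e1, ← e2] at e3
    exact e3
  · obtain ⟨w', rfl, h⟩ := h
    rw [sem_terminals_append] at h
    obtain ⟨w'', rfl, u, v, rfl, hu, w3, rfl, h⟩ := h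
    rw [sem_terminals_append] at h
    obtain ⟨w4, rfl, w5, rfl, h⟩ := h
    have h' : w5 = [] := h
    subst h'
    exact ⟨0, u, hu, by simp⟩
  · obtain ⟨w0, v, rfl, hw0, h⟩ := h
    rw [sem_terminals_append] at h
    obtain ⟨w', rfl, u, v, rfl, ⟨k, w1, hw1, rfl⟩, h⟩ := h
    rw [sem_terminals_append] at h
    obtain ⟨w'', rfl, z1, rfl, w2, z2, rfl, hw2, z3, rfl, w3, z4, rfl, hw3, z5, rfl, w4, z6, rfl,
      hw4, z7, rfl, w5, z8, rfl, hw5, hnil⟩ := h
    have hnil' : z8 = [] := hnil
    subst hnil'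
    refine ⟨p.1, l, k, q.1, s, t, p.2, q.2, w0, w1, w2, w3, w4, w5, hw0, hw1, hw2, hw3, hw4, hw5,
      ?_⟩
    simp

lemma gen_word [Finite A] (d : A) : ∀ w : List A, w ≠ [] →
    Gen (gram d) [Symbol.nonterminal NTs.word] w := by
  intro w
  induction w with
  | nil => exact fun h => absurd rfl h
  | cons a w ih =>
    intro _
    cases w with
    | nil =>
      refine Gen.rule (g := gram d) (r := ruleA a) ?_ (Gen.terminal _ a)
      exact (ruleSet_finite d).mem_toFinset.mpr (Or.inl ⟨a, rfl⟩)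
    | cons b w =>
      refine Gen.rule (g := gram d) (r := ruleB a) ?_
        (Gen.cons_terminal a (ih (List.cons_ne_nil _ _)))
      exact (ruleSet_finite d).mem_toFinset.mpr (Or.inr (Or.inl ⟨a, rfl⟩))

lemma gen_mid [Finite A] (d : A) (p : BW A) (l : A) (q : BW A) (s : A) (k : ℕ) (w1 : List A)
    (hw1 : w1 ≠ []) :
    Gen (gram d) [Symbol.nonterminal (NTs.mid p l q s)] (List.replicate (k + 1) l ++
      (q.1 ++ (w1 ++ s :: (p.1 ++ List.replicate (k + 1) l)))) := by
  induction k with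
  | zero =>
    have h : Gen (gram d) (ruleD ((p, l), (q, s))).output
        (l :: (q.1 ++ (w1 ++ (s :: (p.1 ++ [l]))))) := by
      refine Gen.cons_terminal l (Gen.append (Gen.terminals _ _) ?_)
      refine Gen.cons_nonterminal (gen_word d w1 hw1) (Gen.cons_terminal s ?_)
      exact Gen.append (Gen.terminals _ _) (Gen.terminal _ l)
    have := Gen.rule (g := gram d) (r := ruleD ((p, l), (q, s)))
      ((ruleSet_finite d).mem_toFinset.mpr (Or.inr (Or.inr (Or.inr (Or.inl ⟨_, rfl⟩))))) h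
    have e : List.replicate (0 + 1) l ++ (q.1 ++ (w1 ++ s :: (p.1 ++ List.replicate (0 + 1) l))) =
        l :: (q.1 ++ (w1 ++ (s :: (p.1 ++ [l])))) := by simp
    rw [e]
    exact this
  | succ k ih =>
    have h : Gen (gram d) (ruleC ((p, l), (q, s))).output
        (l :: ((List.replicate (k + 1) l ++ (q.1 ++ (w1 ++ s :: (p.1 ++
        List.replicate (k + 1) l)))) ++ [l])) :=
      Gen.cons_terminal l (Gen.cons_nonterminal ih (Gen.terminal _ l))
    have h2 := Gen.rule (g := gram d) (r := ruleC ((p, l), (q, s)))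
      ((ruleSet_finite d).mem_toFinset.mpr (Or.inr (Or.inr (Or.inl ⟨_, rfl⟩)))) h
    have e1 : List.replicate (k + 1 + 1) l = l :: List.replicate (k + 1) l :=
      List.replicate_succ
    have e2 : List.replicate (k + 1 + 1) l = List.replicate (k + 1) l ++ [l] :=
      List.replicate_succ'
    have e3 : l :: ((List.replicate (k + 1) l ++ (q.1 ++ (w1 ++ s :: (p.1 ++
        List.replicate (k + 1) l)))) ++ [l]) = (l :: List.replicate (k + 1) l) ++
        (q.1 ++ (w1 ++ s :: (p.1 ++ (List.replicate (k + 1) l ++ [l])))) := by simp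
    rw [e3, ← e1, ← e2] at h2
    exact h2

lemma gen_start [Finite A] (d : A) (w : List A) (h : GoodWord d w) :
    Gen (gram d) [Symbol.nonterminal NTs.start] w := by
  obtain ⟨p, l, k, q, s, t, hp, hq, w0, w1, w2, w3, w4, w5, h0, h1, h2, h3, h4, h5, rfl⟩ := h
  have hg : Gen (gram d) (ruleE d (((⟨p, hp⟩, l), (⟨q, hq⟩, s)), t)).output
      (w0 ++ (p ++ ((List.replicate (k + 1) l ++
      (q ++ (w1 ++ s :: (p ++ List.replicate (k + 1) l)))) ++ (q ++ (t :: (w2 ++ (s :: (w3 ++
      (d :: (w4 ++ (t :: (w5 ++ [])))))))))))) := by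
    refine Gen.cons_nonterminal (gen_word d w0 h0) (Gen.append (Gen.terminals _ _) ?_)
    refine Gen.cons_nonterminal (gen_mid d _ _ _ _ k w1 h1) (Gen.append (Gen.terminals _ _) ?_)
    refine Gen.cons_terminal t (Gen.cons_nonterminal (gen_word d w2 h2) ?_)
    refine Gen.cons_terminal s (Gen.cons_nonterminal (gen_word d w3 h3) ?_)
    refine Gen.cons_terminal d (Gen.cons_nonterminal (gen_word d w4 h4) ?_)
    exact Gen.cons_terminal t (Gen.cons_nonterminal (gen_word d w5 h5) (Gen.nil _))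
  have h2 := Gen.rule (g := gram d) (r := ruleE d (((⟨p, hp⟩, l), (⟨q, hq⟩, s)), t))
    ((ruleSet_finite d).mem_toFinset.mpr (Or.inr (Or.inr (Or.inr (Or.inr ⟨_, rfl⟩))))) hg
  have e : w0 ++ (p ++ ((List.replicate (k + 1) l ++
      (q ++ (w1 ++ s :: (p ++ List.replicate (k + 1) l)))) ++ (q ++ (t :: (w2 ++ (s :: (w3 ++
      (d :: (w4 ++ (t :: (w5 ++ [])))))))))))
      = w0 ++ ((p ++ (List.replicate (k + 1) l ++ q)) ++ (w1 ++ s ::
      ((p ++ (List.replicate (k + 1) l ++ q)) ++ t :: (w2 ++ s :: (w3 ++ d ::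
      (w4 ++ t :: w5)))))) := by simp
  rw [← e]
  exact h2

/-- The grammar generates exactly the good words. -/
lemma mem_gram_language [Finite A] (d : A) (w : List A) :
    w ∈ (gram d).language ↔ GoodWord d w := by
  rw [ContextFreeGrammar.mem_language_iff]
  constructor
  · intro h
    exact language_sound (gram d) (interp d)
      (fun r hr w hw => interp_sound d r ((ruleSet_finite d).mem_toFinset.mp hr) w hw) w h
  · intro h
    exact gen_start d w h

end Pool.Agent.Lib.MP_235015_lc
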