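import Mathlib
import Pool.Agent.Lib.MP_235015_lc.Defs
import Pool.Agent.Lib.MP_235015_lc.ProofMatch
import Pool.Agent.Lib.MP_235015_lc.ProofCF

/-!
# A context-free NE-pattern language over four letters that is not regular
-/

namespace Pool.Agent.Lib.MP_235015_lc

variable {A : Type}

/-- A variable as a pattern word. -/
def var (i : ℕ+) : PatternWord A := FreeMonoid.of (Sum.inl i)

/-- The pattern `1 2 3 4 2 5 6 4 7 d 8 5 9`. -/
def thePattern (d : A) : PatternWord A :=
  var 1 * (var 2 * (var 3 * (var 4 * (var 2 * (var 5 * (var 6 * (var 4 * (var 7 *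
    (FreeMonoid.of (Sum.inr d) * (var 8 * (var 5 * var 9)))))))))))

lemma thePattern_ne_one (d : A) : thePattern d ≠ 1 := by
  intro h
  have := congrArg FreeMonoid.length h
  simp [thePattern, var] at this

lemma mem_thePattern (d : A) (w : List A) :
    w ∈ nePatternLanguage (thePattern d) ↔ ∃ x s t, x ≠ [] ∧ IsMatch d x s t w := by
  constructor
  · rintro ⟨σ, hT, hN, rfl⟩
    have hf : ∀ i : ℕ+, FreeMonoid.toList (σ (var i)) ≠ [] := by
      intro i h
      apply hN i
      exact FreeMonoid.toList.injective h
    have hd : FreeMonoid.toList (σ (FreeMonoid.of (Sum.inr d))) = [d] := by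
      rw [hT d]
      rfl
    have hσ : FreeMonoid.toList (σ (thePattern d)) =
        FreeMonoid.toList (σ (var 1)) ++ (FreeMonoid.toList (σ (var 2)) ++
        (FreeMonoid.toList (σ (var 3)) ++ (FreeMonoid.toList (σ (var 4)) ++
        (FreeMonoid.toList (σ (var 2)) ++ (FreeMonoid.toList (σ (var 5)) ++
        (FreeMonoid.toList (σ (var 6)) ++ (FreeMonoid.toList (σ (var 4)) ++
        (FreeMonoid.toList (σ (var 7)) ++ ([d] ++
        (FreeMonoid.toList (σ (var 8)) ++ (FreeMonoid.toList (σ (var 5)) ++
        (FreeMonoid.toList (σ (var 9))))))))))))))  := by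
      simp only [thePattern, map_mul, FreeMonoid.toList_mul, hd]
    rw [hσ]
    obtain ⟨u', s, hu⟩ : ∃ u' s, FreeMonoid.toList (σ (var 4)) = u' ++ [s] := by
      rcases List.eq_nil_or_concat (FreeMonoid.toList (σ (var 4))) with h | ⟨L, b, h⟩
      · exact absurd h (hf 4)
      · exact ⟨L, b, by rw [h, List.concat_eq_append]⟩
    obtain ⟨t, v', hv⟩ : ∃ t v', FreeMonoid.toList (σ (var 5)) = t :: v' := by
      cases h : FreeMonoid.toList (σ (var 5)) with
      | nil => exact absurd h (hf 5)
      | cons a l => exact ⟨a, l, rfl⟩
    refine ⟨FreeMonoid.toList (σ (var 2)), s, t, hf 2,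
      FreeMonoid.toList (σ (var 1)), FreeMonoid.toList (σ (var 3)) ++ u',
      v' ++ (FreeMonoid.toList (σ (var 6)) ++ u'), FreeMonoid.toList (σ (var 7)),
      FreeMonoid.toList (σ (var 8)), v' ++ FreeMonoid.toList (σ (var 9)),
      hf 1, ?_, ?_, hf 7, hf 8, ?_, ?_⟩
    · simp [hf 3]
    · simp [hf 6]
    · simp [hf 9]
    · rw [hu, hv]
      simp
  · rintro ⟨x, s, t, hx, w0, w1, w2, w3, w4, w5, h0, h1, h2, h3, h4, h5, rfl⟩
    let f : ℕ+ → List A := fun i =>
      if i = 1 then w0 else if i = 2 then x else if i = 3 then w1 else if i = 4 then [s] else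
      if i = 5 then [t] else if i = 6 then w2 else if i = 7 then w3 else if i = 8 then w4 else
      if i = 9 then w5 else [d]
    have hf : ∀ i, f i ≠ [] := by
      intro i
      simp only [f]
      split_ifs <;> first | assumption | simp
    let σ : PatternWord A →* FreeMonoid A :=
      FreeMonoid.lift (Sum.elim (fun i => FreeMonoid.ofList (f i)) FreeMonoid.of)
    have hσv : ∀ i : ℕ+, σ (FreeMonoid.of (Sum.inl i)) = FreeMonoid.ofList (f i) := by
      intro i
      simp [σ]
    have hσt : ∀ a : A, σ (FreeMonoid.of (Sum.inr a)) = FreeMonoid.of a := by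
      intro a
      simp [σ]
    refine ⟨σ, hσt, ?_, ?_⟩
    · intro i h
      rw [hσv] at h
      exact hf i (FreeMonoid.ofList.injective h)
    · simp only [thePattern, var, map_mul, FreeMonoid.toList_mul, hσv, hσt,
        FreeMonoid.toList_ofList, FreeMonoid.toList_of]
      simp [f]

/-- Over a four-letter alphabet the language of `thePattern d` is context-free. -/
theorem thePattern_isContextFree [Fintype A] (hA : Fintype.card A = 4) (d : A) :
    (nePatternLanguage (thePattern d)).IsContextFree := by
  refine ⟨gram d, ?_⟩
  ext w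
  rw [mem_gram_language, mem_thePattern]
  constructor
  · rintro ⟨p, l, k, q, s, t, -, -, hm⟩
    refine ⟨_, s, t, ?_, hm⟩
    simp [List.replicate_succ]
  · rintro ⟨x, s, t, hx, hm⟩
    exact exists_good_match hA d w x.length x s t (le_refl _) hx hm

lemma append_cons_unique {u v u' v' : List A} {d : A} (h : u ++ d :: v = u' ++ d :: v')
    (hu : d ∉ u') (hv : d ∉ v') : u = u' ∧ v = v' := by
  rcases List.append_eq_append_iff.mp h with ⟨e, he, he2⟩ | ⟨e, he, he2⟩
  · cases e with
    | nil =>
      simp at he he2
      exact ⟨he.symm, he2⟩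
    | cons b e =>
      simp only [List.cons_append, List.cons.injEq] at he2
      exfalso
      apply hu
      rw [he, ← he2.1]
      simp
  · cases e with
    | nil =>
      simp at he he2
      exact ⟨he, he2.symm⟩
    | cons b e =>
      simp only [List.cons_append, List.cons.injEq] at he2
      exfalso
      apply hv
      rw [he2.2]
      simp

/-- The test words. -/
def testWord (a b c d : A) (m n : ℕ) : List A :=
  (a :: List.replicate m c) ++ (a :: a :: (List.replicate n c ++ (b :: a :: a :: a :: d ::
    [b, b, b])))

lemma testWord_fwd (a b c d : A) (n : ℕ) :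
    IsMatch d (List.replicate n c) a b (testWord a b c d n n) :=
  ⟨[a], [a], [a], [a], [b], [b], by simp, by simp, by simp, by simp, by simp, by simp,
    by simp [testWord]⟩

lemma testWord_bwd [DecidableEq A] {a b c d : A} (hab : a ≠ b) (hac : a ≠ c) (hbc : b ≠ c)
    (had : a ≠ d) (hbd : b ≠ d) (hcd : c ≠ d) {m n : ℕ} {x : List A} {s t : A}
    (hm : IsMatch d x s t (testWord a b c d m n)) : n ≤ m := by
  obtain ⟨w0, w1, w2, w3, w4, w5, h0, h1, h2, h3, h4, h5, hw⟩ := hm
  have e1 : (w0 ++ (x ++ (w1 ++ s :: (x ++ t :: (w2 ++ s :: w3))))) ++ d :: (w4 ++ t :: w5) =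
      (a :: (List.replicate m c ++ a :: a :: (List.replicate n c ++ [b, a, a, a]))) ++
        d :: [b, b, b] := by
    rw [testWord] at hw
    simp only [List.append_assoc, List.cons_append, List.nil_append] at hw ⊢
    exact hw.symm
  obtain ⟨e2, e3⟩ := append_cons_unique e1
    (by simp [had.symm, hbd.symm, hcd.symm]) (by simp [hbd.symm])
  have htb : t = b := by
    have : t ∈ [b, b, b] := by rw [← e3]; simp
    simpa using this
  subst htb
  have e4 : (w0 ++ (x ++ (w1 ++ s :: x))) ++ t :: (w2 ++ s :: w3) =
      (a :: (List.replicate m c ++ a :: a :: List.replicate n c)) ++ t :: [a, a, a] := by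
    simp only [List.append_assoc, List.cons_append, List.nil_append] at e2 ⊢
    exact e2
  obtain ⟨e5, e6⟩ := append_cons_unique e4
    (by simp [hab.symm, hbc]) (by simp [hab.symm])
  have hsa : s = a := by
    have : s ∈ [a, a, a] := by rw [← e6]; simp
    simpa using this
  subst hsa
  have hcount : n ≤ x.count c := by
    have e7 : (w0 ++ (x ++ w1)) ++ s :: x =
        (s :: (List.replicate m c ++ [s])) ++ s :: List.replicate n c := by
      simp only [List.append_assoc, List.cons_append, List.nil_append] at e5 ⊢
      exact e5
    rcases List.append_eq_append_iff.mp e7 with ⟨e, he, he2⟩ | ⟨e, he, he2⟩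
    · have := congrArg (List.count c) he2
      simp [List.count_cons, hac] at this
      omega
    · cases e with
      | nil =>
        simp at he2
        rw [← he2]
        simp
      | cons b' e =>
        simp only [List.cons_append, List.cons.injEq] at he2
        exfalso
        have : s ∈ List.replicate n c := by rw [he2.2]; simp
        simp [hac] at this
  have htot := congrArg (List.count c) e5
  simp [List.count_cons, hac] at htot
  omega

/-- Over a four-letter alphabet the language of `thePattern d` is not regular. -/
theorem thePattern_not_isRegular [Fintype A] (hA : Fintype.card A = 4) (d : A) :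
    ¬ (nePatternLanguage (thePattern d)).IsRegular := by
  classical
  intro hreg
  have hcard : (Finset.univ.erase d).card = 3 := by
    rw [Finset.card_erase_of_mem (Finset.mem_univ d), Finset.card_univ, hA]
  obtain ⟨a, b, c, hab, hac, hbc, hs⟩ := Finset.card_eq_three.mp hcard
  have had : a ≠ d := by
    have : a ∈ Finset.univ.erase d := by rw [hs]; simp
    exact (Finset.mem_erase.mp this).1
  have hbd : b ≠ d := by
    have : b ∈ Finset.univ.erase d := by rw [hs]; simp
    exact (Finset.mem_erase.mp this).1
  have hcd : c ≠ d := by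
    have : c ∈ Finset.univ.erase d := by rw [hs]; simp
    exact (Finset.mem_erase.mp this).1
  have hfin := hreg.finite_range_leftQuotient
  have hinj : Function.Injective (fun m : ℕ =>
      (nePatternLanguage (thePattern d)).leftQuotient (a :: List.replicate m c)) := by
    have key : ∀ i j : ℕ, i < j →
        (nePatternLanguage (thePattern d)).leftQuotient (a :: List.replicate i c) ≠
        (nePatternLanguage (thePattern d)).leftQuotient (a :: List.replicate j c) := by
      intro i j hij heq
      have h1 : (a :: a :: (List.replicate j c ++ (b :: a :: a :: a :: d :: [b, b, b]))) ∈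
          (nePatternLanguage (thePattern d)).leftQuotient (a :: List.replicate j c) := by
        rw [Language.mem_leftQuotient, mem_thePattern]
        refine ⟨List.replicate j c, a, b, ?_, testWord_fwd a b c d j⟩
        intro h
        have := congrArg List.length h
        simp at this
        omega
      rw [← heq, Language.mem_leftQuotient, mem_thePattern] at h1
      obtain ⟨x, s, t, -, hm⟩ := h1
      have := testWord_bwd hab hac hbc had hbd hcd (m := i) (n := j) (x := x) (s := s) (t := t) hm
      omega
    intro i j hij
    rcases lt_trichotomy i j with h | h | h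
    · exact absurd hij (key i j h)
    · exact h
    · exact absurd hij.symm (key j i h)
  have hinf := Set.infinite_range_of_injective hinj
  apply hinf
  refine hfin.subset ?_
  rintro L ⟨m, rfl⟩
  exact ⟨_, rfl⟩

/-- Main theorem. -/
theorem main (A : Type) [Fintype A] (hA : Fintype.card A = 4) :
    ∃ α : PatternWord A, α ≠ 1 ∧ (nePatternLanguage α).IsContextFree ∧
      ¬ (nePatternLanguage α).IsRegular := by
  obtain ⟨d⟩ : Nonempty A := Fintype.card_pos_iff.mp (by omega)
  exact ⟨thePattern d, thePattern_ne_one d, thePattern_isContextFree hA d,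
    thePattern_not_isRegular hA d⟩

end Pool.Agent.Lib.MP_235015_lc
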